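import Pool.Agent.Helper65.TU.Stmts4
import Pool.Agent.Helper65.TU.Basic

/-!
# The hull of a weakly compact set in an l_1-sum (second proof of row H1)
-/

set_option autoImplicit false

open Set Filter Topology
open scoped ENNReal

namespace Pool.Agent.Helper65.TU

universe u v

open scoped Classical in
/-- the part of `y` off `F` -/
noncomputable def h16_off {Γ : Type v} {X : Γ → Type u} [∀ g, NormedAddCommGroup (X g)]
    (F : Finset Γ) (y : lp X 1) : lp X 1 := y - ∑ g ∈ F, lp.single 1 g (y g)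

theorem h16_off_mem {Γ : Type v} {X : Γ → Type u} [∀ g, NormedAddCommGroup (X g)]
    (F : Finset Γ) (y : lp X 1) (g : Γ) (hg : g ∈ F) : (h16_off F y) g = 0 := by
  classical
  unfold h16_off
  rw [lp.coeFn_sub, Pi.sub_apply, lp.coeFn_sum, Finset.sum_apply]
  simp only [lp.coeFn_single]
  rw [Finset.sum_pi_single]
  simp [hg]

theorem h16_off_notMem {Γ : Type v} {X : Γ → Type u} [∀ g, NormedAddCommGroup (X g)]
    (F : Finset Γ) (y : lp X 1) (g : Γ) (hg : g ∉ F) : (h16_off F y) g = y g := by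
  classical
  unfold h16_off
  rw [lp.coeFn_sub, Pi.sub_apply, lp.coeFn_sum, Finset.sum_apply]
  simp only [lp.coeFn_single]
  rw [Finset.sum_pi_single]
  simp [hg]

theorem h16_sum_le {Γ : Type v} {X : Γ → Type u} [∀ g, NormedAddCommGroup (X g)]
    (y : lp X 1) (s : Finset Γ) : ∑ i ∈ s, ‖y i‖ ≤ ‖y‖ := by
  have := lp.sum_rpow_le_norm_rpow (p := 1) (by simp) y s
  simpa using this

theorem h16_le_of_sum {Γ : Type v} {X : Γ → Type u} [∀ g, NormedAddCommGroup (X g)]
    (y : lp X 1) (C : ℝ) (hC : 0 ≤ C) (h : ∀ s : Finset Γ, ∑ i ∈ s, ‖y i‖ ≤ C) : ‖y‖ ≤ C := by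
  refine lp.norm_le_of_forall_sum_le (p := 1) (by simp) hC fun s => ?_
  simpa using h s

theorem h16_wc (Γ : Type v) (X : Γ → Type u) [∀ g, NormedAddCommGroup (X g)]
    [∀ g, NormedSpace ℝ (X g)] (A : (g : Γ) → Set (X g)) (hA : ∀ g, WCpt (A g)) (C : ℝ)
    (hC : 0 ≤ C) (F : ℕ → Finset Γ) (r : ℕ → ℝ) (hr0 : ∀ n, 0 ≤ r n)
    (hr : Tendsto r atTop (𝓝 0)) :
    WCpt {y : lp X 1 | (∀ g, y g ∈ A g) ∧ ‖y‖ ≤ C ∧ ∀ n, ‖h16_off (F n) y‖ ≤ r n} := by
  unfold WCpt
  rw [isCompact_iff_ultrafilter_le_nhds]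
  intro U hU
  have hU' : ∀ᶠ a in (U : Filter (WeakSpace ℝ (lp X 1))),
      (∀ g, ((toWeakSpace ℝ (lp X 1)).symm a) g ∈ A g) ∧
      ‖(toWeakSpace ℝ (lp X 1)).symm a‖ ≤ C ∧
      ∀ n, ‖h16_off (F n) ((toWeakSpace ℝ (lp X 1)).symm a)‖ ≤ r n := by
    have := le_principal_iff.1 hU
    filter_upwards [this] with a ha
    obtain ⟨y, hy, rfl⟩ := ha
    simpa using hy
  have hn : ∀ᶠ a in (U : Filter (WeakSpace ℝ (lp X 1))),
      ‖(toWeakSpace ℝ (lp X 1)).symm a‖ ≤ C := hU'.mono fun a ha => ha.2.1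
  have h1 : ∀ g, ∃ z : X g, z ∈ A g ∧ ∀ φ : X g →L[ℝ] ℝ,
      Tendsto (fun a => φ (((toWeakSpace ℝ (lp X 1)).symm a) g)) U (𝓝 (φ z)) := by
    intro g
    have h2 := (hA g).ultrafilter_le_nhds
      (U.map (fun a => toWeakSpace ℝ (X g) (((toWeakSpace ℝ (lp X 1)).symm a) g)))
      (le_principal_iff.2 (by
        rw [Ultrafilter.coe_map, Filter.mem_map]
        filter_upwards [hU'] with a ha
        exact ⟨_, ha.1 g, rfl⟩))
    obtain ⟨_, ⟨z, hz, rfl⟩, h3⟩ := h2
    exact ⟨z, hz, wk_tendsto.1 h3⟩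
  choose z hz1 hz2 using h1
  have h4 : ∀ g, ∃ m : ℝ, ‖z g‖ ≤ m ∧
      Tendsto (fun a => ‖((toWeakSpace ℝ (lp X 1)).symm a) g‖) U (𝓝 m) := by
    intro g
    have h5 := (isCompact_Icc : IsCompact (Icc (0 : ℝ) C)).ultrafilter_le_nhds
      (U.map (fun a => ‖((toWeakSpace ℝ (lp X 1)).symm a) g‖))
      (le_principal_iff.2 (by
        rw [Ultrafilter.coe_map, Filter.mem_map]
        filter_upwards [hn] with a ha
        exact ⟨norm_nonneg _, (lp.norm_apply_le_norm one_ne_zero _ g).trans ha⟩))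
    obtain ⟨m, -, h6⟩ := h5
    refine ⟨m, ?_, h6⟩
    obtain ⟨φ, hφ1, hφ2⟩ := exists_dual_vector'' ℝ (z g)
    have h7 := hz2 g φ
    rw [hφ2] at h7
    refine le_of_tendsto_of_tendsto' h7 h6 fun a => ?_
    calc φ (((toWeakSpace ℝ (lp X 1)).symm a) g)
        ≤ ‖φ (((toWeakSpace ℝ (lp X 1)).symm a) g)‖ := le_abs_self _
      _ ≤ ‖φ‖ * ‖((toWeakSpace ℝ (lp X 1)).symm a) g‖ := φ.le_opNorm _
      _ ≤ 1 * ‖((toWeakSpace ℝ (lp X 1)).symm a) g‖ :=
          mul_le_mul_of_nonneg_right hφ1 (norm_nonneg _)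
      _ = _ := one_mul _
  choose m hm1 hm2 using h4
  have h8 : ∀ s : Finset Γ, ∑ g ∈ s, ‖z g‖ ≤ C := by
    intro s
    have h9 : Tendsto (fun a => ∑ g ∈ s, ‖((toWeakSpace ℝ (lp X 1)).symm a) g‖) U
        (𝓝 (∑ g ∈ s, m g)) := tendsto_finsetSum s fun g _ => hm2 g
    have h10 : ∑ g ∈ s, m g ≤ C := by
      refine le_of_tendsto h9 ?_
      filter_upwards [hn] with a ha
      exact (h16_sum_le _ s).trans ha
    exact (Finset.sum_le_sum fun g _ => hm1 g).trans h10
  have hmem : Memℓp z (1 : ℝ≥0∞) := by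
    refine memℓp_gen' (C := C) fun s => ?_
    simpa using h8 s
  set zz : lp X 1 := ⟨z, hmem⟩ with hzz
  have hzn : ‖zz‖ ≤ C := h16_le_of_sum zz C hC h8
  have htail : ∀ n, ‖h16_off (F n) zz‖ ≤ r n := by
    classical
    intro n
    refine h16_le_of_sum _ _ (hr0 n) fun s => ?_
    have h9 : Tendsto (fun a => ∑ g ∈ s,
        ‖(h16_off (F n) ((toWeakSpace ℝ (lp X 1)).symm a)) g‖) U
        (𝓝 (∑ g ∈ s, if g ∈ F n then 0 else m g)) := by
      refine tendsto_finsetSum s fun g _ => ?_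
      by_cases hg : g ∈ F n
      · simp only [if_pos hg, h16_off_mem _ _ g hg, norm_zero]
        exact tendsto_const_nhds
      · simp only [if_neg hg, h16_off_notMem _ _ g hg]
        exact hm2 g
    have h10 : (∑ g ∈ s, if g ∈ F n then 0 else m g) ≤ r n := by
      refine le_of_tendsto h9 ?_
      filter_upwards [hU'] with a ha
      exact (h16_sum_le _ s).trans (ha.2.2 n)
    refine le_trans (Finset.sum_le_sum fun g _ => ?_) h10
    by_cases hg : g ∈ F n
    · simp only [if_pos hg, h16_off_mem _ _ g hg, norm_zero, le_refl]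
    · simp only [if_neg hg, h16_off_notMem _ _ g hg]
      exact hm1 g
  refine ⟨toWeakSpace ℝ (lp X 1) zz, ⟨zz, ⟨hz1, hzn, htail⟩, rfl⟩, ?_⟩
  have key : ∀ f : lp X 1 →L[ℝ] ℝ,
      Tendsto (fun a => f ((toWeakSpace ℝ (lp X 1)).symm a)) U (𝓝 (f zz)) := by
    classical
    intro f
    rw [Metric.tendsto_nhds]
    intro ε hε
    have h11 : Tendsto (fun n => ‖f‖ * (r n + r n)) atTop (𝓝 0) := by
      have := (hr.add hr).const_mul ‖f‖
      simpa using this
    obtain ⟨n, hn1⟩ := (h11.eventually (gt_mem_nhds (show (0 : ℝ) < ε / 2 by positivity))).exists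
    have h12 : Tendsto (fun a => ∑ g ∈ F n, (f (lp.single 1 g
        (((toWeakSpace ℝ (lp X 1)).symm a) g)) - f (lp.single 1 g (zz g)))) U (𝓝 0) := by
      have : Tendsto (fun a => ∑ g ∈ F n, (f (lp.single 1 g
        (((toWeakSpace ℝ (lp X 1)).symm a) g)) - f (lp.single 1 g (zz g)))) U
        (𝓝 (∑ g ∈ F n, (0 : ℝ))) := by
        refine tendsto_finsetSum _ fun g _ => ?_
        have hcont : Continuous (fun x : X g => lp.single (E := X) 1 g x) :=
          (lp.isometry_single (E := X) (p := 1) g).continuous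
        have h13 := (hz2 g (f.comp ⟨lp.lsingle (𝕜 := ℝ) (E := X) 1 g, hcont⟩)).sub_const
          (f (lp.single 1 g (z g)))
        have h14 : (f.comp ⟨lp.lsingle (𝕜 := ℝ) (E := X) 1 g, hcont⟩) (z g) -
            f (lp.single 1 g (z g)) = 0 := sub_self _
        rw [h14] at h13
        exact h13
      simpa using this
    rw [Metric.tendsto_nhds] at h12
    filter_upwards [hU', h12 (ε / 2) (by positivity)] with a ha1 ha2
    rw [Real.dist_eq, sub_zero] at ha2
    rw [Real.dist_eq]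
    set y := (toWeakSpace ℝ (lp X 1)).symm a with hy
    have e1 : y - zz = (h16_off (F n) y - h16_off (F n) zz) +
        ∑ g ∈ F n, (lp.single 1 g (y g) - lp.single 1 g (zz g)) := by
      unfold h16_off
      rw [Finset.sum_sub_distrib]
      abel
    have e2 : f y - f zz = f (h16_off (F n) y - h16_off (F n) zz) +
        ∑ g ∈ F n, (f (lp.single 1 g (y g)) - f (lp.single 1 g (zz g))) := by
      rw [← map_sub, e1, map_add, map_sum]
      congr 1
      exact Finset.sum_congr rfl fun g _ => map_sub _ _ _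
    have e3 : |f (h16_off (F n) y - h16_off (F n) zz)| ≤ ‖f‖ * (r n + r n) := by
      calc |f (h16_off (F n) y - h16_off (F n) zz)|
          ≤ ‖f‖ * ‖h16_off (F n) y - h16_off (F n) zz‖ := f.le_opNorm _
        _ ≤ ‖f‖ * (r n + r n) := mul_le_mul_of_nonneg_left
            ((norm_sub_le _ _).trans (add_le_add (ha1.2.2 n) (htail n))) (norm_nonneg _)
    rw [e2]
    calc |f (h16_off (F n) y - h16_off (F n) zz) +
        ∑ g ∈ F n, (f (lp.single 1 g (y g)) - f (lp.single 1 g (zz g)))|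
        ≤ |f (h16_off (F n) y - h16_off (F n) zz)| +
          |∑ g ∈ F n, (f (lp.single 1 g (y g)) - f (lp.single 1 g (zz g)))| := abs_add_le _ _
      _ < ε := by linarith
  have h14 := wk_tendsto.2 key
  have h15 : (fun a => toWeakSpace ℝ (lp X 1) ((toWeakSpace ℝ (lp X 1)).symm a)) = id := by
    funext a
    simp
  rw [h15] at h14
  exact h14

theorem h16_H1 (hT : ST_T1.{u, v}) : ST_H1.{u, v} := by
  intro Γ X _ _ A hA K hK c hc
  have hF : ∀ n : ℕ, ∃ F : Finset Γ, ∀ x ∈ K, ∀ y : lp X 1, (∀ g ∈ F, y g = 0) →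
      (∀ g, ‖y g‖ ≤ ‖x g‖) → ‖y‖ ≤ 1 / ((n : ℝ) + 1) :=
    fun n => hT Γ X K hK (1 / ((n : ℝ) + 1)) (by positivity)
  choose F hF using hF
  obtain ⟨C, hC⟩ := hK.bounded
  have hr : Tendsto (fun n : ℕ => c * (1 / ((n : ℝ) + 1))) atTop (𝓝 0) := by
    have := (tendsto_one_div_add_atTop_nhds_zero_nat (𝕜 := ℝ)).const_mul c
    simpa using this
  refine ⟨_, h16_wc Γ X A hA (c * |C|) (by positivity) F (fun n => c * (1 / ((n : ℝ) + 1)))
    (fun n => by positivity) hr, ?_⟩
  rintro y hy ⟨x, hx, hyx⟩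
  refine ⟨hy, ?_, ?_⟩
  · refine h16_le_of_sum y _ (by positivity) fun s => ?_
    calc ∑ i ∈ s, ‖y i‖ ≤ ∑ i ∈ s, c * ‖x i‖ := Finset.sum_le_sum fun i _ => hyx i
      _ = c * ∑ i ∈ s, ‖x i‖ := by rw [Finset.mul_sum]
      _ ≤ c * |C| := mul_le_mul_of_nonneg_left
          ((h16_sum_le x s).trans ((hC x hx).trans (le_abs_self C))) hc
  · intro n
    rcases hc.eq_or_lt with hc0 | hc0
    · have hz : h16_off (F n) y = 0 := by
        ext g
        have h0 : y g = 0 := by
          have := hyx g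
          rw [← hc0, zero_mul] at this
          exact norm_le_zero_iff.1 this
        by_cases hg : g ∈ F n
        · rw [h16_off_mem _ _ g hg]
          rfl
        · rw [h16_off_notMem _ _ g hg, h0]
          rfl
      rw [hz, norm_zero]
      positivity
    · have h1 := hF n x hx (c⁻¹ • h16_off (F n) y)
        (fun g hg => by
          rw [lp.coeFn_smul, Pi.smul_apply, h16_off_mem _ _ g hg, smul_zero])
        (fun g => by
          rw [lp.coeFn_smul, Pi.smul_apply, norm_smul, norm_inv, Real.norm_eq_abs,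
            abs_of_pos hc0, inv_mul_le_iff₀ hc0]
          by_cases hg : g ∈ F n
          · rw [h16_off_mem _ _ g hg, norm_zero]
            positivity
          · rw [h16_off_notMem _ _ g hg]
            exact hyx g)
      rw [norm_smul, norm_inv, Real.norm_eq_abs, abs_of_pos hc0, inv_mul_le_iff₀ hc0] at h1
      exact h1

end Pool.Agent.Helper65.TU
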