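import Pool.Agent.Helper65.TU.Stmts3
import Pool.Agent.Helper65.TU.Basic

/-!
# Weak compactness in l_p-sums, coordinatewise
-/

set_option autoImplicit false

open Set Filter Topology
open scoped ENNReal

namespace Pool.Agent.Helper65.TU

universe u v

/-- limits of functionals in an l_p-sum from limits of the coordinates -/
theorem lpw_lim (hL : ST_LPF.{u, v}) (Γ : Type v) (X : Γ → Type u)
    [∀ g, NormedAddCommGroup (X g)] [∀ g, NormedSpace ℝ (X g)] (p : ℝ≥0∞) [Fact (1 ≤ p)]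
    (hp1 : 1 < p) (hp2 : p ≠ ⊤) {A : Type*} (U : Filter A) (h : A → lp X p) (C : ℝ)
    (hC : ∀ᶠ a in U, ‖h a‖ ≤ C)
    (hco : ∀ (g : Γ) (φ : X g →L[ℝ] ℝ), Tendsto (fun a => φ (h a g)) U (𝓝 0))
    (f : lp X p →L[ℝ] ℝ) : Tendsto (fun a => f (h a)) U (𝓝 0) := by
  classical
  have hp : 0 < p.toReal := ENNReal.toReal_pos (zero_lt_one.trans hp1).ne' hp2
  rw [Metric.tendsto_nhds]
  intro ε hε
  have hC' : 0 < |C| + 1 := by positivity
  obtain ⟨F, hF⟩ := hL Γ X p hp1 hp2 f (ε / (2 * (|C| + 1))) (by positivity)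
  have h1 : Tendsto (fun a => ∑ g ∈ F, f (lp.single p g (h a g))) U (𝓝 0) := by
    have : Tendsto (fun a => ∑ g ∈ F, f (lp.single p g (h a g))) U (𝓝 (∑ g ∈ F, (0 : ℝ))) := by
      refine tendsto_finsetSum F fun g _ => ?_
      have hcont : Continuous (fun x : X g => lp.single (E := X) p g x) :=
        (lp.isometry_single (E := X) (p := p) g).continuous
      exact hco g (f.comp ⟨lp.lsingle (𝕜 := ℝ) (E := X) p g, hcont⟩)
    simpa using this
  rw [Metric.tendsto_nhds] at h1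
  filter_upwards [hC, h1 (ε / 2) (by positivity)] with a ha1 ha2
  rw [Real.dist_eq, sub_zero] at ha2 ⊢
  set s : lp X p := ∑ g ∈ F, lp.single p g (h a g) with hs
  have e1 : ∀ g ∈ F, (h a - s) g = 0 := by
    intro g hg
    rw [hs, lp.coeFn_sub, Pi.sub_apply, lp.coeFn_sum, Finset.sum_apply]
    simp only [lp.coeFn_single]
    rw [Finset.sum_pi_single]
    simp [hg]
  have e2 : ‖h a - s‖ ≤ ‖h a‖ := by
    have e3 := lp.norm_sub_norm_compl_sub_single hp (h a) F
    have e4 : 0 ≤ ∑ i ∈ F, ‖(h a) i‖ ^ p.toReal :=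
      Finset.sum_nonneg fun i _ => Real.rpow_nonneg (norm_nonneg _) _
    have e5 : ‖h a - s‖ ^ p.toReal ≤ ‖h a‖ ^ p.toReal := by
      rw [hs]
      linarith
    exact (Real.rpow_le_rpow_iff (norm_nonneg _) (norm_nonneg _) hp).1 e5
  have e6 := hF (h a - s) e1
  have e7 : f s = ∑ g ∈ F, f (lp.single p g (h a g)) := by rw [hs, map_sum]
  have e8 : f (h a) = f (h a - s) + ∑ g ∈ F, f (lp.single p g (h a g)) := by
    rw [map_sub, e7]
    ring
  rw [e8]
  have e9 : ε / (2 * (|C| + 1)) * ‖h a - s‖ ≤ ε / 2 := by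
    have : ‖h a - s‖ ≤ |C| + 1 := by
      have := le_abs_self C
      linarith
    calc ε / (2 * (|C| + 1)) * ‖h a - s‖ ≤ ε / (2 * (|C| + 1)) * (|C| + 1) :=
          mul_le_mul_of_nonneg_left this (by positivity)
      _ = ε / 2 := by field_simp
  calc |f (h a - s) + ∑ g ∈ F, f (lp.single p g (h a g))|
      ≤ |f (h a - s)| + |∑ g ∈ F, f (lp.single p g (h a g))| := abs_add_le _ _
    _ < ε := by linarith

theorem st_LPW (hL : ST_LPF.{u, v}) : ST_LPW.{u, v} := by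
  intro Γ X _ _ p _ hp1 hp2 A hA
  have hp : 0 < p.toReal := ENNReal.toReal_pos (zero_lt_one.trans hp1).ne' hp2
  have hp0 : p ≠ 0 := (zero_lt_one.trans hp1).ne'
  unfold WCpt
  rw [isCompact_iff_ultrafilter_le_nhds]
  intro U hU
  have hU' : ∀ᶠ a in (U : Filter (WeakSpace ℝ (lp X p))),
      ‖(toWeakSpace ℝ (lp X p)).symm a‖ ≤ 1 ∧
      ∀ g, ((toWeakSpace ℝ (lp X p)).symm a) g ∈ A g := by
    have := le_principal_iff.1 hU
    filter_upwards [this] with a ha
    obtain ⟨y, hy, rfl⟩ := ha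
    simpa using hy
  have hn : ∀ᶠ a in (U : Filter (WeakSpace ℝ (lp X p))),
      ‖(toWeakSpace ℝ (lp X p)).symm a‖ ≤ 1 := hU'.mono fun a ha => ha.1
  -- limits of the coordinates
  have h1 : ∀ g, ∃ z : X g, z ∈ A g ∧ ∀ φ : X g →L[ℝ] ℝ,
      Tendsto (fun a => φ (((toWeakSpace ℝ (lp X p)).symm a) g)) U (𝓝 (φ z)) := by
    intro g
    have h2 := (hA g).ultrafilter_le_nhds
      (U.map (fun a => toWeakSpace ℝ (X g) (((toWeakSpace ℝ (lp X p)).symm a) g)))
      (le_principal_iff.2 (by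
        rw [Ultrafilter.coe_map, Filter.mem_map]
        filter_upwards [hU'] with a ha
        exact ⟨_, ha.2 g, rfl⟩))
    obtain ⟨_, ⟨z, hz, rfl⟩, h3⟩ := h2
    exact ⟨z, hz, wk_tendsto.1 h3⟩
  choose z hz1 hz2 using h1
  have h4 : ∀ g, ∃ m : ℝ, ‖z g‖ ≤ m ∧
      Tendsto (fun a => ‖((toWeakSpace ℝ (lp X p)).symm a) g‖) U (𝓝 m) := by
    intro g
    have h5 := (isCompact_Icc : IsCompact (Icc (0 : ℝ) 1)).ultrafilter_le_nhds
      (U.map (fun a => ‖((toWeakSpace ℝ (lp X p)).symm a) g‖))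
      (le_principal_iff.2 (by
        rw [Ultrafilter.coe_map, Filter.mem_map]
        filter_upwards [hn] with a ha
        exact ⟨norm_nonneg _, (lp.norm_apply_le_norm hp0 _ g).trans ha⟩))
    obtain ⟨m, -, h6⟩ := h5
    refine ⟨m, ?_, h6⟩
    obtain ⟨φ, hφ1, hφ2⟩ := exists_dual_vector'' ℝ (z g)
    have h7 := hz2 g φ
    rw [hφ2] at h7
    refine le_of_tendsto_of_tendsto' h7 h6 fun a => ?_
    calc φ (((toWeakSpace ℝ (lp X p)).symm a) g)
        ≤ ‖φ (((toWeakSpace ℝ (lp X p)).symm a) g)‖ := le_abs_self _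
      _ ≤ ‖φ‖ * ‖((toWeakSpace ℝ (lp X p)).symm a) g‖ := φ.le_opNorm _
      _ ≤ 1 * ‖((toWeakSpace ℝ (lp X p)).symm a) g‖ :=
          mul_le_mul_of_nonneg_right hφ1 (norm_nonneg _)
      _ = _ := one_mul _
  choose m hm1 hm2 using h4
  have h8 : ∀ F : Finset Γ, ∑ g ∈ F, ‖z g‖ ^ p.toReal ≤ 1 := by
    intro F
    have h9 : Tendsto (fun a => ∑ g ∈ F, ‖((toWeakSpace ℝ (lp X p)).symm a) g‖ ^ p.toReal) U
        (𝓝 (∑ g ∈ F, m g ^ p.toReal)) :=
      tendsto_finsetSum F fun g _ => (hm2 g).rpow_const (Or.inr hp.le)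
    have h10 : ∑ g ∈ F, m g ^ p.toReal ≤ 1 := by
      refine le_of_tendsto h9 ?_
      filter_upwards [hn] with a ha
      exact (lp.sum_rpow_le_norm_rpow hp _ F).trans
        (Real.rpow_le_one (norm_nonneg _) ha hp.le)
    refine le_trans (Finset.sum_le_sum fun g _ => ?_) h10
    exact Real.rpow_le_rpow (norm_nonneg _) (hm1 g) hp.le
  have hmem : Memℓp z p := memℓp_gen' h8
  set zz : lp X p := ⟨z, hmem⟩ with hzz
  have hzn : ‖zz‖ ≤ 1 := by
    refine lp.norm_le_of_forall_sum_le hp zero_le_one fun s => ?_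
    rw [Real.one_rpow]
    exact h8 s
  refine ⟨toWeakSpace ℝ (lp X p) zz, ⟨zz, ⟨hzn, hz1⟩, rfl⟩, ?_⟩
  have key : ∀ f : lp X p →L[ℝ] ℝ,
      Tendsto (fun a => f ((toWeakSpace ℝ (lp X p)).symm a)) U (𝓝 (f zz)) := by
    intro f
    have h11 := lpw_lim hL Γ X p hp1 hp2 (U : Filter (WeakSpace ℝ (lp X p)))
      (fun a => (toWeakSpace ℝ (lp X p)).symm a - zz) 2
      (by
        filter_upwards [hn] with a ha
        exact (norm_sub_le _ _).trans (by linarith))
      (fun g φ => by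
        have h12 := (hz2 g φ).sub_const (φ (z g))
        rw [sub_self] at h12
        refine h12.congr fun a => ?_
        rw [← map_sub]
        rfl) f
    have h13 := h11.add_const (f zz)
    rw [zero_add] at h13
    refine h13.congr fun a => ?_
    rw [map_sub, sub_add_cancel]
  have h14 := wk_tendsto.2 key
  have h15 : (fun a => toWeakSpace ℝ (lp X p) ((toWeakSpace ℝ (lp X p)).symm a)) = id := by
    funext a
    simp
  rw [h15] at h14
  exact h14

end Pool.Agent.Helper65.TU
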