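import Pool.Agent.Helper65.TU.Stmts5
import Pool.Agent.Helper65.TU.Basic

/-!
# Weak compactness of preimages, reflexive kernel
-/

set_option autoImplicit false

open Set Filter Topology

namespace Pool.Agent.Helper65.TU

universe u

theorem st_RQ1 : ST_RQ1.{u} := by
  intro X Z _ _ _ _ a T hT M hM r
  unfold WCpt
  rw [isCompact_iff_ultrafilter_le_nhds]
  intro U hU
  have hU' : ∀ᶠ b in (U : Filter (WeakSpace ℝ X)),
      T ((toWeakSpace ℝ X).symm b) ∈ M ∧ ‖(toWeakSpace ℝ X).symm b‖ ≤ r := by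
    have := le_principal_iff.1 hU
    filter_upwards [this] with b hb
    obtain ⟨y, hy, rfl⟩ := hb
    simpa using hy
  -- limits of functionals
  have h1 : ∀ f : X →L[ℝ] ℝ, ∃ l : ℝ,
      Tendsto (fun b => f ((toWeakSpace ℝ X).symm b)) U (𝓝 l) ∧ |l| ≤ ‖f‖ * |r| := by
    intro f
    have h5 := (isCompact_Icc : IsCompact (Icc (-(‖f‖ * |r|)) (‖f‖ * |r|))).ultrafilter_le_nhds
      (U.map (fun b => f ((toWeakSpace ℝ X).symm b)))
      (le_principal_iff.2 (by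
        rw [Ultrafilter.coe_map, Filter.mem_map]
        filter_upwards [hU'] with b hb
        show f ((toWeakSpace ℝ X).symm b) ∈ Icc (-(‖f‖ * |r|)) (‖f‖ * |r|)
        rw [mem_Icc, ← abs_le]
        calc |f ((toWeakSpace ℝ X).symm b)| ≤ ‖f‖ * ‖(toWeakSpace ℝ X).symm b‖ := f.le_opNorm _
          _ ≤ ‖f‖ * |r| := mul_le_mul_of_nonneg_left (hb.2.trans (le_abs_self r))
              (norm_nonneg _)))
    obtain ⟨l, hl, h6⟩ := h5
    exact ⟨l, h6, abs_le.2 hl⟩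
  choose Λ hΛ hΛb using h1
  have uniq : ∀ (f : X →L[ℝ] ℝ) (l : ℝ),
      Tendsto (fun b => f ((toWeakSpace ℝ X).symm b)) U (𝓝 l) → Λ f = l :=
    fun f l hl => tendsto_nhds_unique (hΛ f) hl
  have hadd : ∀ f g : X →L[ℝ] ℝ, Λ (f + g) = Λ f + Λ g :=
    fun f g => uniq _ _ ((hΛ f).add (hΛ g))
  have hsub : ∀ f g : X →L[ℝ] ℝ, Λ (f - g) = Λ f - Λ g :=
    fun f g => uniq _ _ ((hΛ f).sub (hΛ g))
  have hsmul : ∀ (c : ℝ) (f : X →L[ℝ] ℝ), Λ (c • f) = c * Λ f :=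
    fun c f => uniq _ _ ((hΛ f).const_mul c)
  -- the limit of `T x`
  have hm : ∃ m ∈ M, ∀ g : Z →L[ℝ] ℝ,
      Tendsto (fun b => g (T ((toWeakSpace ℝ X).symm b))) U (𝓝 (g m)) := by
    have h2 := hM.ultrafilter_le_nhds
      (U.map (fun b => toWeakSpace ℝ Z (T ((toWeakSpace ℝ X).symm b))))
      (le_principal_iff.2 (by
        rw [Ultrafilter.coe_map, Filter.mem_map]
        filter_upwards [hU'] with b hb
        exact ⟨_, hb.1, rfl⟩))
    obtain ⟨_, ⟨z, hz, rfl⟩, h3⟩ := h2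
    exact ⟨z, hz, wk_tendsto.1 h3⟩
  obtain ⟨m, hmM, hm⟩ := hm
  have hT0 : ∀ g : Z →L[ℝ] ℝ, Λ (g.comp T) = g m := fun g => uniq _ _ (hm g)
  obtain ⟨x₀, hx₀, -⟩ := hT.lift m
  -- functionals vanishing on the kernel
  have h5 : ∀ f : X →L[ℝ] ℝ, (∀ y, T y = 0 → f y = 0) → Λ f = f x₀ := by
    intro f hf
    choose s hs1 hs2 using hT.lift
    have hs3 : ∀ x, f (s (T x)) = f x := by
      intro x
      have := hf (s (T x) - x) (by rw [map_sub, hs1, sub_self])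
      rw [map_sub, sub_eq_zero] at this
      exact this
    have hs4 : ∀ z w, f (s (z + w)) = f (s z) + f (s w) := by
      intro z w
      have := hs3 (s z + s w)
      rw [map_add, hs1, hs1, map_add] at this
      exact this
    have hs5 : ∀ (c : ℝ) z, f (s (c • z)) = c * f (s z) := by
      intro c z
      have := hs3 (c • s z)
      rw [map_smul, hs1, map_smul, smul_eq_mul] at this
      exact this
    let g0 : Z →ₗ[ℝ] ℝ :=
      { toFun := fun z => f (s z)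
        map_add' := hs4
        map_smul' := fun c z => by rw [hs5]; rfl }
    let g : Z →L[ℝ] ℝ := g0.mkContinuous (‖f‖ * a) (fun z => by
      calc ‖g0 z‖ = ‖f (s z)‖ := rfl
        _ ≤ ‖f‖ * ‖s z‖ := f.le_opNorm _
        _ ≤ ‖f‖ * (a * ‖z‖) := mul_le_mul_of_nonneg_left (hs2 z) (norm_nonneg _)
        _ = ‖f‖ * a * ‖z‖ := by ring)
    have hfg : g.comp T = f := by
      ext x
      exact hs3 x
    have h6 := hT0 g
    rw [hfg] at h6
    rw [h6, ← hx₀]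
    exact hs3 x₀
  -- the functional on the dual of the kernel
  have hext : ∀ g : (LinearMap.ker (T : X →ₗ[ℝ] Z)) →L[ℝ] ℝ, ∃ g' : X →L[ℝ] ℝ,
      (∀ x : LinearMap.ker (T : X →ₗ[ℝ] Z), g' x = g x) ∧ ‖g'‖ = ‖g‖ :=
    fun g => exists_extension_norm_eq (𝕜 := ℝ) _ g
  choose E hE1 hE2 using hext
  have wd : ∀ (g : (LinearMap.ker (T : X →ₗ[ℝ] Z)) →L[ℝ] ℝ) (f : X →L[ℝ] ℝ),
      (∀ x : LinearMap.ker (T : X →ₗ[ℝ] Z), f x = g x) →
      Λ f - f x₀ = Λ (E g) - (E g) x₀ := by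
    intro g f hf
    have h7 := h5 (f - E g) (fun y hy => by
      have hy' : y ∈ LinearMap.ker (T : X →ₗ[ℝ] Z) := LinearMap.mem_ker.2 hy
      have e1 := hf ⟨y, hy'⟩
      have e2 := hE1 g ⟨y, hy'⟩
      simp only at e1 e2
      rw [sub_apply, e1, e2, sub_self])
    rw [hsub, sub_apply] at h7
    linarith
  let η0 : ((LinearMap.ker (T : X →ₗ[ℝ] Z)) →L[ℝ] ℝ) →ₗ[ℝ] ℝ :=
    { toFun := fun g => Λ (E g) - (E g) x₀
      map_add' := fun g₁ g₂ => by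
        have := wd (g₁ + g₂) (E g₁ + E g₂) (fun x => by
          rw [add_apply, hE1, hE1]; rfl)
        rw [hadd, add_apply] at this
        linarith
      map_smul' := fun c g => by
        have := wd (c • g) (c • E g) (fun x => by
          rw [smul_apply, hE1]; rfl)
        rw [hsmul, smul_apply, smul_eq_mul] at this
        simp only [RingHom.id_apply, smul_eq_mul]
        linarith }
  have hη : ∀ g : (LinearMap.ker (T : X →ₗ[ℝ] Z)) →L[ℝ] ℝ, ‖η0 g‖ ≤ (|r| + ‖x₀‖) * ‖g‖ := by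
    intro g
    have e1 : |Λ (E g) - (E g) x₀| ≤ (|r| + ‖x₀‖) * ‖g‖ := by
      calc |Λ (E g) - (E g) x₀| ≤ |Λ (E g)| + |(E g) x₀| := abs_sub _ _
        _ ≤ ‖E g‖ * |r| + ‖E g‖ * ‖x₀‖ := add_le_add (hΛb _) ((E g).le_opNorm _)
        _ = (|r| + ‖x₀‖) * ‖g‖ := by rw [hE2]; ring
    exact e1
  let η := LinearMap.mkContinuous (E := (LinearMap.ker (T : X →ₗ[ℝ] Z)) →L[ℝ] ℝ) (F := ℝ)
    η0 (|r| + ‖x₀‖) hη
  obtain ⟨y₀, hy₀⟩ := hT.refl η
  have hy : ∀ g : (LinearMap.ker (T : X →ₗ[ℝ] Z)) →L[ℝ] ℝ, g y₀ = Λ (E g) - (E g) x₀ := by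
    intro g
    have h8 : (NormedSpace.inclusionInDoubleDual ℝ (LinearMap.ker (T : X →ₗ[ℝ] Z)) y₀) g = η g := by
      rw [hy₀]
    exact h8
  have hlim : ∀ f : X →L[ℝ] ℝ, Λ f = f (x₀ + y₀) := by
    intro f
    have h9 := hy (f.comp (LinearMap.ker (T : X →ₗ[ℝ] Z)).subtypeL)
    have h10 := wd (f.comp (LinearMap.ker (T : X →ₗ[ℝ] Z)).subtypeL) f (fun x => rfl)
    have h11 : (f.comp (LinearMap.ker (T : X →ₗ[ℝ] Z)).subtypeL) y₀ = f (y₀ : X) := rfl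
    rw [map_add]
    linarith
  have key : ∀ f : X →L[ℝ] ℝ,
      Tendsto (fun b => f ((toWeakSpace ℝ X).symm b)) U (𝓝 (f (x₀ + y₀))) := by
    intro f
    rw [← hlim f]
    exact hΛ f
  have hTz : T (x₀ + y₀) ∈ M := by
    have h12 : T (y₀ : X) = 0 := LinearMap.mem_ker.1 y₀.2
    rw [map_add, h12, add_zero, hx₀]
    exact hmM
  have hnz : ‖x₀ + (y₀ : X)‖ ≤ r := by
    obtain ⟨φ, hφ1, hφ2⟩ := exists_dual_vector'' ℝ (x₀ + (y₀ : X))
    have h7 := key φ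
    rw [hφ2] at h7
    refine le_of_tendsto h7 ?_
    filter_upwards [hU'] with b hb
    calc φ ((toWeakSpace ℝ X).symm b) ≤ ‖φ ((toWeakSpace ℝ X).symm b)‖ := le_abs_self _
      _ ≤ ‖φ‖ * ‖(toWeakSpace ℝ X).symm b‖ := φ.le_opNorm _
      _ ≤ 1 * ‖(toWeakSpace ℝ X).symm b‖ := mul_le_mul_of_nonneg_right hφ1 (norm_nonneg _)
      _ = ‖(toWeakSpace ℝ X).symm b‖ := one_mul _
      _ ≤ r := hb.2
  refine ⟨toWeakSpace ℝ X (x₀ + y₀), ⟨x₀ + y₀, ⟨hTz, hnz⟩, rfl⟩, ?_⟩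
  have h14 := wk_tendsto.2 key
  have h15 : (fun b => toWeakSpace ℝ X ((toWeakSpace ℝ X).symm b)) = id := by
    funext b
    simp
  rw [h15] at h14
  exact h14

end Pool.Agent.Helper65.TU
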